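import Pool.Agent.N176.GW.Stm

set_option autoImplicit false

/-!
# Project GW (helper176), part KT (helper707): `k` exponents given the first digits, golden base
-/

namespace Pool.Agent.N707.GW

open Finset
open Pool.Agent.H305R2 (roughPart)
open Pool.Agent.N176.GW

/-! ### The golden ratio -/

theorem fib_phi (h : ℕ) :
    (Nat.fib (h + 1) : ℝ) + Nat.fib h / Real.goldenRatio = Real.goldenRatio ^ h := by
  have h1 := Real.goldenRatio_mul_fib_succ_add_fib h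
  have h2 := Real.goldenRatio_ne_zero
  refine mul_left_cancel₀ h2 ?_
  rw [mul_add, mul_div_cancel₀ _ h2, h1, pow_succ, mul_comm]

theorem fib_le (h : ℕ) : (Nat.fib h : ℝ) ≤ Real.goldenRatio ^ h := by
  have h1 := fib_phi h
  have h2 : (Nat.fib h : ℝ) ≤ Nat.fib (h + 1) := by exact_mod_cast Nat.fib_le_fib_succ
  have h3 : (0:ℝ) ≤ Nat.fib h / Real.goldenRatio :=
    div_nonneg (Nat.cast_nonneg _) Real.goldenRatio_pos.le
  linarith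

theorem aux (φ ψ s : ℝ) (hφ : 1 ≤ φ) (hψ : |ψ| ≤ 1) (hs : 2 ≤ s) (a b : ℕ) :
    |(φ ^ a - ψ ^ a) / s - (φ ^ (a + b) - ψ ^ (a + b)) / s / φ ^ b| ≤ 1 := by
  have hφb : 1 ≤ φ ^ b := one_le_pow₀ hφ
  have hφb0 : φ ^ b ≠ 0 := (zero_lt_one.trans_le hφb).ne'
  have hs0 : s ≠ 0 := by linarith
  have e : (φ ^ a - ψ ^ a) / s - (φ ^ (a + b) - ψ ^ (a + b)) / s / φ ^ b =
      (ψ ^ (a + b) / φ ^ b - ψ ^ a) / s := by
    rw [pow_add φ]
    field_simp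
    ring
  have h1 : |ψ ^ (a + b) / φ ^ b| ≤ 1 := by
    rw [abs_div, abs_pow, abs_of_pos (zero_lt_one.trans_le hφb), div_le_one
      (zero_lt_one.trans_le hφb)]
    exact (pow_le_one₀ (abs_nonneg _) hψ).trans hφb
  have h2 : |ψ ^ a| ≤ 1 := by
    rw [abs_pow]
    exact pow_le_one₀ (abs_nonneg _) hψ
  rw [e, abs_div, abs_of_pos (by linarith : 0 < s), div_le_one (by linarith)]
  exact (abs_sub _ _).trans (by linarith)

theorem two_le_sqrt : (2:ℝ) ≤ √5 := by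
  rw [show (2:ℝ) = √4 by rw [show (4:ℝ) = 2 ^ 2 by norm_num, Real.sqrt_sq (by norm_num)]]
  exact Real.sqrt_le_sqrt (by norm_num)

theorem theta_le (a b : ℕ) :
    |(Nat.fib a : ℝ) - Nat.fib (a + b) / Real.goldenRatio ^ b| ≤ 1 := by
  rw [Real.coe_fib_eq, Real.coe_fib_eq]
  refine aux _ _ _ Real.one_lt_goldenRatio.le ?_ two_le_sqrt a b
  rw [abs_le]
  exact ⟨Real.neg_one_lt_goldenConj.le, Real.goldenConj_neg.le.trans zero_le_one⟩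

theorem phi_ge : 3 / 2 ≤ Real.goldenRatio := by
  have h := two_le_sqrt
  show 3 / 2 ≤ (1 + √5) / 2
  linarith

theorem phi_three : 3 ≤ Real.goldenRatio ^ 3 := by
  have h1 := phi_ge
  have h2 := Real.goldenRatio_sq
  have h3 : Real.goldenRatio ^ 3 = 2 * Real.goldenRatio + 1 := by
    rw [pow_succ, h2, add_mul, one_mul, ← pow_two, h2]
    ring
  rw [h3]
  linarith

theorem phi_four : 6 ≤ Real.goldenRatio ^ 4 := by
  have h1 := phi_ge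
  have h2 := Real.goldenRatio_sq
  have h3 : Real.goldenRatio ^ 3 = 2 * Real.goldenRatio + 1 := by
    rw [pow_succ, h2, add_mul, one_mul, ← pow_two, h2]
    ring
  have h4 : Real.goldenRatio ^ 4 = 3 * Real.goldenRatio + 2 := by
    rw [pow_succ, h3, add_mul, one_mul, mul_assoc, ← pow_two, h2]
    ring
  rw [h4]
  linarith

theorem gf_real (h N : ℕ) : ((gf h N : ℤ) : ℝ) =
    N * Real.goldenRatio ^ h - Nat.fib h * Int.fract ((N : ℝ) / Real.goldenRatio) := by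
  unfold gf
  rw [← fib_phi h, Int.fract]
  push_cast
  ring

/-! ### The digits -/

theorem digits {φ : ℝ} (hφ : φ = Real.goldenRatio) {g : ℕ → ℝ} {G : ℝ} (hg : ∀ p, |g p| ≤ G)
    {K0 : ℕ} (hK0 : G + 3 ≤ K0) {t p1 m : ℕ} {N : ℕ} (hN1 : (N : ℝ) * φ ^ (t - p1) ≤ m)
    (hN2 : (m : ℝ) < (N + 1) * φ ^ (t - p1)) :
    0 ≤ (m : ℤ) - gf (t - p1) N ∧ (((m : ℤ) - gf (t - p1) N : ℤ) : ℝ) ≤ 2 * φ ^ (t - p1) ∧
    ∀ p, p1 ≤ p → p ≤ t → ∃ c : ℤ, -(K0 : ℤ) ≤ c ∧ c ≤ K0 ∧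
      lv φ g t p m = (gf (p - p1) N +
        (⌊(((m : ℤ) - gf (t - p1) N : ℤ) : ℝ) / φ ^ (t - p)⌋ + c)).toNat := by
  obtain ⟨r, hr⟩ : ∃ r : ℤ, r = (m : ℤ) - gf (t - p1) N := ⟨_, rfl⟩
  rw [← hr]
  obtain ⟨v, hv⟩ : ∃ v : ℝ, v = Int.fract ((N : ℝ) / φ) := ⟨_, rfl⟩
  have hv0 : 0 ≤ v := hv ▸ Int.fract_nonneg _
  have hv1 : v < 1 := hv ▸ Int.fract_lt_one _
  have hφ1 : 1 < φ := hφ ▸ Real.one_lt_goldenRatio
  have hgf : ∀ k, ((gf k N : ℤ) : ℝ) = N * φ ^ k - Nat.fib k * v := fun k => by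
    rw [gf_real, hv, hφ]
  have hrr : (r : ℝ) = m - N * φ ^ (t - p1) + Nat.fib (t - p1) * v := by
    rw [hr, Int.cast_sub, hgf, Int.cast_natCast]
    ring
  have hfl : (Nat.fib (t - p1) : ℝ) ≤ φ ^ (t - p1) := by
    rw [hφ]
    exact fib_le _
  have hf0 : (0:ℝ) ≤ Nat.fib (t - p1) := Nat.cast_nonneg _
  have hfv : (Nat.fib (t - p1) : ℝ) * v ≤ Nat.fib (t - p1) := by nlinarith
  have hfv0 : 0 ≤ (Nat.fib (t - p1) : ℝ) * v := mul_nonneg hf0 hv0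
  refine ⟨?_, ?_, fun p hp1 hpt => ?_⟩
  · have h1 : (0:ℝ) ≤ r := by rw [hrr]; linarith
    exact_mod_cast h1
  · rw [hrr]
    linarith
  · have hab : t - p1 = (p - p1) + (t - p) := by omega
    have hb : 0 < φ ^ (t - p) := by positivity
    have hθ : |(Nat.fib (p - p1) : ℝ) - Nat.fib (t - p1) / φ ^ (t - p)| ≤ 1 := by
      rw [hab, hφ]
      exact theta_le _ _
    obtain ⟨θ, hθ'⟩ : ∃ θ : ℝ, θ = (Nat.fib (p - p1) : ℝ) - Nat.fib (t - p1) / φ ^ (t - p) :=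
      ⟨_, rfl⟩
    rw [← hθ'] at hθ
    have hy : (m : ℝ) / φ ^ (t - p) + g p =
        ((gf (p - p1) N : ℤ) : ℝ) + (r : ℝ) / φ ^ (t - p) + (θ * v + g p) := by
      rw [hgf, hrr, hθ', hab, pow_add φ (p - p1) (t - p)]
      field_simp
      ring
    have hδ : |θ * v + g p| ≤ 1 + G := by
      refine (abs_add_le _ _).trans (add_le_add ?_ (hg p))
      rw [abs_mul, abs_of_nonneg hv0]
      calc |θ| * v ≤ 1 * 1 := mul_le_mul hθ hv1.le hv0 zero_le_one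
        _ = 1 := one_mul 1
    obtain ⟨hδ1, hδ2⟩ := abs_le.1 hδ
    obtain ⟨δ, hδ'⟩ : ∃ δ : ℝ, δ = θ * v + g p := ⟨_, rfl⟩
    rw [← hδ'] at hδ1 hδ2 hy
    obtain ⟨y, hy'⟩ : ∃ y : ℝ, y = (m : ℝ) / φ ^ (t - p) + g p := ⟨_, rfl⟩
    obtain ⟨w, hw⟩ : ∃ w : ℝ, w = (r : ℝ) / φ ^ (t - p) := ⟨_, rfl⟩
    refine ⟨⌊y⌋ - gf (p - p1) N - ⌊w⌋, ?_, ?_, ?_⟩
    · have h1 : y < ⌊y⌋ + 1 := Int.lt_floor_add_one y
      have h2 : (⌊w⌋ : ℝ) ≤ w := Int.floor_le w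
      have h3 : (-(K0 : ℤ) : ℝ) < ((⌊y⌋ - gf (p - p1) N - ⌊w⌋ : ℤ) : ℝ) := by
        push_cast
        rw [hw] at h2 ⊢
        rw [← hy'] at hy
        linarith
      have h4 : -(K0 : ℤ) < ⌊y⌋ - gf (p - p1) N - ⌊w⌋ := by exact_mod_cast h3
      exact h4.le
    · have h1 : (⌊y⌋ : ℝ) ≤ y := Int.floor_le y
      have h2 : w < ⌊w⌋ + 1 := Int.lt_floor_add_one w
      have h3 : ((⌊y⌋ - gf (p - p1) N - ⌊w⌋ : ℤ) : ℝ) < ((K0 : ℤ) : ℝ) := by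
        push_cast
        rw [hw] at h2 ⊢
        rw [← hy'] at hy
        linarith
      have h4 : ⌊y⌋ - gf (p - p1) N - ⌊w⌋ < (K0 : ℤ) := by exact_mod_cast h3
      exact h4.le
    · rw [← hw]
      unfold lv
      rw [← hy', ← Int.floor_toNat]
      congr 1
      ring

/-! ### Counting -/

theorem kt (hT : S_TUG) (g : ℕ → ℝ) (hg : ∃ G : ℝ, ∀ p, |g p| ≤ G) :
    S_K Real.goldenRatio g := by
  classical
  obtain ⟨G, hG⟩ := hg
  have hG0 : 0 ≤ G := (abs_nonneg _).trans (hG 0)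
  obtain ⟨K0, hK0⟩ := exists_nat_ge (G + 3)
  obtain ⟨C, hC, P, hP⟩ := hT ((K0 : ℝ) + 2)
  have hK1 : (1:ℝ) ≤ 2 * K0 + 1 := by
    have : (0:ℝ) ≤ K0 := Nat.cast_nonneg _
    linarith
  refine ⟨6 * (2 * K0 + 1) * C, ?_, max P 16, ?_⟩
  · nlinarith
  intro x hx F hF hFx hFc z hz t ht j hj hjz
  have hxP : P ≤ x := (le_max_left _ _).trans hx
  have hx16 : 16 ≤ x := (le_max_right _ _).trans hx
  obtain ⟨p1, hp1F, hp1⟩ : ∃ p1 ∈ F, ∀ p ∈ F, p1 ≤ p :=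
    ⟨F.min' hF, F.min'_mem hF, fun p hp => F.min'_le p hp⟩
  have hp1x := hFx p1 hp1F
  have hft := hP x hxP F hFx hFc p1 hp1F hp1
  have hphi3 := phi_three
  have hphi4 := phi_four
  have hφ1 := Real.one_lt_goldenRatio
  have hdig := fun (m N : ℕ) => @digits Real.goldenRatio rfl g G hG K0 hK0 t p1 m N
  obtain ⟨φ, hφ⟩ : ∃ φ, φ = Real.goldenRatio := ⟨_, rfl⟩
  rw [← hφ] at hft hphi3 hphi4 hφ1 hdig hjz ⊢
  have hφ0 : 0 < φ := by linarith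
  have hφz := hφ0.ne'
  clear hP hT
  -- sizes
  obtain ⟨E, hE⟩ : ∃ E : ℝ, E = φ ^ (p1 - z) := ⟨_, rfl⟩
  obtain ⟨X, hX⟩ : ∃ X : ℝ, X = φ ^ (x / 2) := ⟨_, rfl⟩
  have hX1 : 1 ≤ X := hX ▸ one_le_pow₀ hφ1.le
  have hEX : 6 * X ≤ E := by
    rw [hX, hE]
    calc 6 * φ ^ (x / 2) ≤ φ ^ 4 * φ ^ (x / 2) :=
          mul_le_mul_of_nonneg_right hphi4 (by positivity)
      _ = φ ^ (4 + x / 2) := by rw [pow_add]
      _ ≤ φ ^ (p1 - z) := pow_le_pow_right₀ hφ1.le (by omega)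
  have hj1 : (1:ℝ) ≤ j := by exact_mod_cast hj
  have hE0 : 0 < E := by linarith
  have hjE : E ≤ j * E := by nlinarith
  obtain ⟨A, hA⟩ : ∃ A : ℕ, A = ⌊(j : ℝ) * E⌋₊ - 2 := ⟨_, rfl⟩
  obtain ⟨Hn, hHn⟩ : ∃ Hn : ℕ, Hn = ⌈E⌉₊ + 5 := ⟨_, rfl⟩
  have hfl1 : (j : ℝ) * E < ⌊(j : ℝ) * E⌋₊ + 1 := Nat.lt_floor_add_one _
  have hfl2 : (⌊(j : ℝ) * E⌋₊ : ℝ) ≤ (j : ℝ) * E := Nat.floor_le (by positivity)
  have hce1 : E ≤ ⌈E⌉₊ := Nat.le_ceil _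
  have hce2 : (⌈E⌉₊ : ℝ) < E + 1 := Nat.ceil_lt_add_one hE0.le
  have hA2 : ⌊(j : ℝ) * E⌋₊ ≤ A + 2 := by omega
  have hA2' : (⌊(j : ℝ) * E⌋₊ : ℝ) ≤ A + 2 := by exact_mod_cast hA2
  have hA3 : (A : ℝ) ≤ ⌊(j : ℝ) * E⌋₊ := by
    have : A ≤ ⌊(j : ℝ) * E⌋₊ := by omega
    exact_mod_cast this
  have hHr : (Hn : ℝ) = ⌈E⌉₊ + 5 := by rw [hHn]; push_cast; ring
  have hcA : φ ^ (x / 2) ≤ (A : ℝ) := by
    rw [← hX]
    linarith
  have hcH : φ ^ (x / 2) ≤ (Hn : ℝ) := by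
    rw [← hX]
    linarith
  have hH2 : (Hn : ℝ) ≤ 2 * E := by linarith
  have hcAH : ((A + Hn : ℕ) : ℝ) ≤ φ ^ (4 * x) := by
    have h1 : (j : ℝ) * E ≤ φ ^ (p1 + z) := by
      calc (j : ℝ) * E ≤ φ ^ (2 * z) * φ ^ (p1 - z) := by
            rw [← hE]
            exact mul_le_mul_of_nonneg_right hjz hE0.le
        _ = φ ^ (p1 + z) := by
            rw [← pow_add]
            congr 1
            omega
    have h2 : E ≤ φ ^ (p1 + z) := hjE.trans h1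
    push_cast
    calc (A : ℝ) + Hn ≤ 3 * φ ^ (p1 + z) := by linarith
      _ ≤ φ ^ 3 * φ ^ (p1 + z) := mul_le_mul_of_nonneg_right hphi3 (by positivity)
      _ = φ ^ (3 + (p1 + z)) := (pow_add φ 3 (p1 + z)).symm
      _ ≤ φ ^ (4 * x) := pow_le_pow_right₀ hφ1.le (by omega)
  obtain ⟨Y, hY⟩ : ∃ Y : ℝ, Y = φ ^ (t - p1) := ⟨_, rfl⟩
  have hY1 : 1 ≤ Y := hY ▸ one_le_pow₀ hφ1.le
  have hYE : φ ^ (t - z) = Y * E := by
    rw [hY, hE, ← pow_add]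
    congr 1
    omega
  -- the pieces
  obtain ⟨Cs, hCs⟩ : ∃ Cs : Finset (F → ℤ),
      Cs = Fintype.piFinset (fun _ : F => Icc (-(K0 : ℤ)) K0) := ⟨_, rfl⟩
  have hCsc : (Cs.card : ℝ) = (2 * K0 + 1) ^ F.card := by
    rw [hCs, Fintype.card_piFinset, Finset.prod_const, Int.card_Icc, Finset.card_univ,
      Fintype.card_coe]
    have h1 : ((K0 : ℤ) + 1 - -(K0 : ℤ)).toNat = 2 * K0 + 1 := by omega
    rw [h1]
    push_cast
    ring
  obtain ⟨Rn, hRn⟩ : ∃ Rn : ℕ, Rn = ⌊2 * Y⌋₊ + 1 := ⟨_, rfl⟩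
  have hRn1 : (Rn : ℝ) ≤ 3 * Y := by
    have h1 : (⌊2 * Y⌋₊ : ℝ) ≤ 2 * Y := Nat.floor_le (by positivity)
    rw [hRn]
    push_cast
    linarith
  let e : ℕ × (F → ℤ) → ℕ → ℤ := fun rc p =>
    ⌊(rc.1 : ℝ) / φ ^ (t - p)⌋ + if hp : p ∈ F then rc.2 ⟨p, hp⟩ else 0
  have hebd : ∀ rc ∈ range Rn ×ˢ Cs, ∀ p ∈ F,
      ((|e rc p| : ℤ) : ℝ) ≤ ((K0 : ℝ) + 2) * φ ^ (p - p1) := by
    intro rc hrc p hp
    obtain ⟨h1, h2⟩ := Finset.mem_product.1 hrc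
    rw [hCs, Fintype.mem_piFinset] at h2
    have h3 := Finset.mem_Icc.1 (h2 ⟨p, hp⟩)
    have h4 : (rc.1 : ℝ) ≤ 2 * Y := by
      have h5 : rc.1 ≤ ⌊2 * Y⌋₊ := by
        rw [Finset.mem_range, hRn] at h1
        omega
      exact (Nat.le_floor_iff (by positivity)).1 h5
    have h5 : (1:ℝ) ≤ φ ^ (p - p1) := one_le_pow₀ hφ1.le
    have h6 : (rc.1 : ℝ) / φ ^ (t - p) ≤ 2 * φ ^ (p - p1) := by
      rw [div_le_iff₀ (by positivity)]
      calc (rc.1 : ℝ) ≤ 2 * Y := h4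
        _ = 2 * φ ^ (p - p1) * φ ^ (t - p) := by
          rw [hY, mul_assoc, ← pow_add]
          congr 2
          have := hp1 p hp
          have := hFx p hp
          omega
    have h7 : (0:ℝ) ≤ (rc.1 : ℝ) / φ ^ (t - p) := by positivity
    have h8 : (⌊(rc.1 : ℝ) / φ ^ (t - p)⌋ : ℝ) ≤ (rc.1 : ℝ) / φ ^ (t - p) := Int.floor_le _
    have h9 : (0:ℤ) ≤ ⌊(rc.1 : ℝ) / φ ^ (t - p)⌋ := Int.floor_nonneg.2 h7
    have h9' : (0:ℝ) ≤ (⌊(rc.1 : ℝ) / φ ^ (t - p)⌋ : ℝ) := by exact_mod_cast h9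
    have he : e rc p = ⌊(rc.1 : ℝ) / φ ^ (t - p)⌋ + rc.2 ⟨p, hp⟩ := by
      simp only [e, hp, dif_pos]
    have h10 : (-(K0 : ℝ)) ≤ (rc.2 ⟨p, hp⟩ : ℝ) := by exact_mod_cast h3.1
    have h11 : (rc.2 ⟨p, hp⟩ : ℝ) ≤ (K0 : ℝ) := by exact_mod_cast h3.2
    have hK00 : (0:ℝ) ≤ K0 := Nat.cast_nonneg _
    rw [he, Int.cast_abs, abs_le]
    push_cast
    constructor <;> nlinarith
  let S : ℕ × (F → ℤ) → Finset ℕ := fun rc => (Ico A (A + Hn)).filter (fun N => ∀ p ∈ F,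
    (roughPart p (gf (p - p1) N + e rc p).toNat).Prime ∧
    (((gf (p - p1) N + e rc p).toNat / roughPart p (gf (p - p1) N + e rc p).toNat : ℕ) : ℝ) <
      Real.exp (x * Real.log φ / 8))
  have hS : ∀ rc ∈ range Rn ×ˢ Cs, ((S rc).card : ℝ) ≤
      (C * F.card * (Real.log x / x)) ^ F.card * Hn := fun rc hrc =>
    hft (e rc) (hebd rc hrc) A Hn hcA hcH hcAH
  have hsub : (cell φ z t j).filter (fun m => ¬ Big φ g F t x m ∧ F ⊆ hits φ g F t m) ⊆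
      (range Rn ×ˢ Cs).biUnion fun rc => (S rc).image fun N =>
        (gf (t - p1) N + (rc.1 : ℤ)).toNat := by
    intro m hm
    obtain ⟨hmc, hmB, hmh⟩ := Finset.mem_filter.1 hm
    rw [cell, Finset.mem_Ico] at hmc
    have hm1 : (j : ℝ) * (Y * E) < m + 1 := by
      rw [← hYE]
      refine (Nat.lt_floor_add_one _).trans_le ?_
      exact_mod_cast Nat.succ_le_succ hmc.1
    have hm2 : (m : ℝ) < (j + 1) * (Y * E) := by
      rw [← hYE]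
      exact Nat.lt_ceil.1 hmc.2
    have hYpos : 0 < Y := by linarith
    obtain ⟨N, hN⟩ : ∃ N : ℕ, N = ⌊(m : ℝ) / Y⌋₊ := ⟨_, rfl⟩
    have hN1 : (N : ℝ) * Y ≤ m := by
      rw [← le_div_iff₀ hYpos, hN]
      exact Nat.floor_le (by positivity)
    have hN2 : (m : ℝ) < (N + 1) * Y := by
      rw [← div_lt_iff₀ hYpos, hN]
      exact Nat.lt_floor_add_one _
    obtain ⟨hr0, hr1, hdg⟩ := hdig m N (by rw [← hY]; exact hN1) (by rw [← hY]; exact hN2)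
    rw [← hY] at hr1
    obtain ⟨r, hr⟩ := Int.eq_ofNat_of_zero_le hr0
    rw [hr] at hr1 hdg
    rw [Int.cast_natCast] at hr1
    have hrR : r ∈ range Rn := by
      rw [Finset.mem_range, hRn]
      exact Nat.lt_succ_of_le (Nat.le_floor hr1)
    choose! c hc1 hc2 hc3 using hdg
    have hle : ∀ p ∈ F, p1 ≤ p ∧ p ≤ t := fun p hp => ⟨hp1 p hp, by
      have := hFx p hp
      omega⟩
    have hcC : (fun p : F => c p) ∈ Cs := by
      rw [hCs, Fintype.mem_piFinset]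
      intro p
      have h1 := hle p p.2
      exact Finset.mem_Icc.2 ⟨hc1 p h1.1 h1.2, hc2 p h1.1 h1.2⟩
    have hlv : ∀ p ∈ F, lv φ g t p m = (gf (p - p1) N + e (r, fun p : F => c p) p).toNat := by
      intro p hp
      have h1 := hle p hp
      have he : e (r, fun p : F => c p) p = ⌊(r : ℝ) / φ ^ (t - p)⌋ + c p := by
        simp only [e, hp, dif_pos]
      rw [hc3 p h1.1 h1.2, he, Int.cast_natCast]
    rw [Finset.mem_biUnion]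
    refine ⟨(r, fun p : F => c p), Finset.mem_product.2 ⟨hrR, hcC⟩, ?_⟩
    rw [Finset.mem_image]
    refine ⟨N, Finset.mem_filter.2 ⟨?_, fun p hp => ?_⟩, ?_⟩
    · -- the range of `N`
      have h1 : (j : ℝ) * E - 1 < N + 1 := by
        have h2 : ((j : ℝ) * E - 1) * Y < (N + 1) * Y := by nlinarith
        exact lt_of_mul_lt_mul_right h2 hYpos.le
      have h3 : (N : ℝ) < (j + 1) * E := by
        have h4 : (N : ℝ) * Y < (j + 1) * E * Y := by nlinarith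
        exact lt_of_mul_lt_mul_right h4 hYpos.le
      have h5 : (⌊(j : ℝ) * E⌋₊ : ℝ) < ((N + 2 : ℕ) : ℝ) := by
        push_cast
        linarith
      have h6 : ⌊(j : ℝ) * E⌋₊ < N + 2 := by exact_mod_cast h5
      have h7 : (N : ℝ) < ((⌊(j : ℝ) * E⌋₊ + 1 + ⌈E⌉₊ : ℕ) : ℝ) := by
        push_cast
        linarith
      have h8 : N < ⌊(j : ℝ) * E⌋₊ + 1 + ⌈E⌉₊ := by exact_mod_cast h7
      rw [Finset.mem_Ico]
      omega
    · have h1 : (roughPart p (lv φ g t p m)).Prime := (Finset.mem_filter.1 (hmh hp)).2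
      have h2 : ¬ Real.exp (x * Real.log φ / 8) ≤
          ((lv φ g t p m / roughPart p (lv φ g t p m) : ℕ) : ℝ) := fun h =>
        hmB ⟨p, hp, h1, h⟩
      rw [hlv p hp] at h1 h2
      exact ⟨h1, not_le.1 h2⟩
    · show (gf (t - p1) N + (r : ℤ)).toNat = m
      have h1 : gf (t - p1) N + (r : ℤ) = (m : ℤ) := by
        have h2 : (m : ℤ) - gf (t - p1) N = (r : ℤ) := hr
        linarith
      rw [h1, Int.toNat_natCast]
  have hcard : (((cell φ z t j).filter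
      (fun m => ¬ Big φ g F t x m ∧ F ⊆ hits φ g F t m)).card : ℝ) ≤
      ∑ rc ∈ range Rn ×ˢ Cs, ((S rc).card : ℝ) := by
    have h1 := (Finset.card_le_card hsub).trans (Finset.card_biUnion_le.trans
      (Finset.sum_le_sum fun rc _ => Finset.card_image_le (s := S rc)
        (f := fun N => (gf (t - p1) N + (rc.1 : ℤ)).toNat)))
    exact_mod_cast h1
  have hk1 : F.card ≠ 0 := (Finset.card_pos.2 hF).ne'
  obtain ⟨k, hk⟩ : ∃ k, k = F.card := ⟨_, rfl⟩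
  rw [← hk] at hS hCsc hk1 ⊢
  obtain ⟨Q, hQ⟩ : ∃ Q : ℝ, Q = C * k * (Real.log x / x) := ⟨_, rfl⟩
  rw [← hQ] at hS
  have hQ0 : 0 ≤ Q := by
    rw [hQ]
    have h1 : 0 ≤ Real.log (x : ℝ) := Real.log_natCast_nonneg x
    positivity
  have h6k : (6:ℝ) ≤ 6 ^ k := by
    calc (6:ℝ) = 6 ^ 1 := (pow_one _).symm
      _ ≤ 6 ^ k := pow_le_pow_right₀ (by norm_num) (Nat.one_le_iff_ne_zero.2 hk1)
  calc (((cell φ z t j).filter
        (fun m => ¬ Big φ g F t x m ∧ F ⊆ hits φ g F t m)).card : ℝ)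
      ≤ ∑ rc ∈ range Rn ×ˢ Cs, ((S rc).card : ℝ) := hcard
    _ ≤ ∑ rc ∈ range Rn ×ˢ Cs, Q ^ k * Hn := Finset.sum_le_sum hS
    _ = (Rn : ℝ) * (2 * K0 + 1) ^ k * (Q ^ k * Hn) := by
        rw [Finset.sum_const, Finset.card_product, Finset.card_range, nsmul_eq_mul]
        push_cast
        rw [hCsc]
    _ ≤ (3 * Y) * (2 * K0 + 1) ^ k * (Q ^ k * (2 * E)) := by
        gcongr
    _ = 6 * ((2 * K0 + 1) ^ k * Q ^ k) * (Y * E) := by ring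
    _ ≤ 6 ^ k * ((2 * K0 + 1) ^ k * Q ^ k) * (Y * E) := by
        gcongr
    _ = (6 * (2 * K0 + 1) * C * k * (Real.log x / x)) ^ k * φ ^ (t - z) := by
        rw [hYE, hQ]
        simp only [← mul_pow]
        ring

end Pool.Agent.N707.GW
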